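import Mathlib
import Pool.Agent.Q263.HK.Rec

/-! # The roots of the binary Hankel determinant polynomials are uniformly bounded -/

set_option autoImplicit false

open Polynomial

namespace Pool.Agent.Results.MP_9fc12a_nt.RootsBounded

/-- `S(n,t) = ∑ ε_j t^j` where `n = ∑ ε_j 2^j` is the binary expansion -/
noncomputable def S (n : ℕ) : ℤ[X] := Nat.ofDigits (X : ℤ[X]) (Nat.digits 2 n)

/-- the Hankel determinant polynomial `H(n,t)` -/
noncomputable def hankel (n : ℕ) : ℤ[X] := (Matrix.of fun i j : Fin n => S (i + j)).det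

lemma S_zero : S 0 = 0 := by simp [S, Nat.ofDigits]

lemma S_even (m : ℕ) : S (2 * m) = X * S m := by
  rcases Nat.eq_zero_or_pos m with rfl | hm
  · simp [S_zero]
  · rw [S, Nat.digits_def' (by norm_num) (by omega)]
    have h1 : 2 * m % 2 = 0 := by omega
    have h2 : 2 * m / 2 = m := by omega
    rw [h1, h2]
    simp [S, Nat.ofDigits]

lemma S_odd (m : ℕ) : S (2 * m + 1) = X * S m + 1 := by
  rw [S, Nat.digits_def' (by norm_num) (by omega)]
  have h1 : (2 * m + 1) % 2 = 1 := by omega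
  have h2 : (2 * m + 1) / 2 = m := by omega
  rw [h1, h2]
  simp [S, Nat.ofDigits, add_comm]

open Q263.HK

section

variable {t : ℂ} {f : ℕ → ℂ}

lemma f_values (hf0 : f 0 = 0) (h0 : ∀ m, f (2 * m) = t * f m)
    (h1 : ∀ m, f (2 * m + 1) = t * f m + 1) : f 1 = 1 ∧ f 2 = t := by
  have e1 : f 1 = 1 := by
    have := h1 0
    simpa [hf0] using this
  refine ⟨e1, ?_⟩
  have := h0 1
  simpa [e1] using this

lemma ratio_g (ht : 4 ≤ ‖t‖) (hf0 : f 0 = 0) (h0 : ∀ m, f (2 * m) = t * f m)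
    (h1 : ∀ m, f (2 * m + 1) = t * f m + 1) (n : ℕ) (hn : 0 < n) :
    ∃ x : ℂ, g' f n = x * g f n ∧ ‖x‖ ≤ 1 ∧ (n % 2 = 1 → x = 1) ∧ (n % 2 = 0 → ‖x‖ ≤ 1 / 2) ∧
      g f n ≠ 0 := by
  have ht0 : t ≠ 0 := by
    intro h
    rw [h, norm_zero] at ht
    linarith
  obtain ⟨f1, f2⟩ := f_values hf0 h0 h1
  induction n using Nat.strong_induction_on with
  | _ n ih =>
    rcases Nat.even_or_odd' n with ⟨m, rfl | rfl⟩
    · have hm : 0 < m := by omega
      obtain ⟨x, hx1, hx2, -, -, hx5⟩ := ih m (by omega) hm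
      obtain ⟨r1, r2⟩ := g_even h0 h1 m hm
      have hc : t * g f m - 2 * g' f m ≠ 0 := by
        rw [hx1, show t * g f m - 2 * (x * g f m) = (t - 2 * x) * g f m by ring]
        refine mul_ne_zero ?_ hx5
        intro h
        have h3 : t = 2 * x := by linear_combination h
        have h4 : ‖t‖ ≤ 2 := by
          rw [h3, norm_mul, Complex.norm_ofNat]
          linarith
        linarith
      have hx : ‖2 * x / t‖ ≤ 1 / 2 := by
        rw [norm_div, norm_mul, Complex.norm_ofNat, div_le_div_iff₀ (by linarith) (by norm_num)]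
        nlinarith
      refine ⟨2 * x / t, ?_, by linarith, by omega, fun _ => hx, ?_⟩
      · rw [r1, r2, hx1]
        obtain ⟨k, rfl⟩ : ∃ k, m = k + 1 := ⟨m - 1, by omega⟩
        rw [Nat.add_sub_cancel]
        field_simp
        ring
      · rw [r1]
        have hs : ((-1 : ℂ)) ^ m ≠ 0 := pow_ne_zero _ (by norm_num)
        exact mul_ne_zero (mul_ne_zero hs (mul_ne_zero (pow_ne_zero _ ht0) hx5))
          (mul_ne_zero (pow_ne_zero _ ht0) hc)
    · rcases Nat.eq_zero_or_pos m with rfl | hm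
      · have e1 : g f 1 = 1 := by
          simp [g, hk, Df, Matrix.det_unique, f1, hf0]
        have e2 : g' f 1 = 1 := by
          simp [g', dd, hk, J, Df, Matrix.det_unique, f1, hf0]
        simp only [Nat.mul_zero, Nat.zero_add]
        refine ⟨1, by rw [e1, e2, one_mul], by simp, fun _ => rfl, by omega, by rw [e1]; simp⟩
      · obtain ⟨x, hx1, hx2, hx3, hx4, hx5⟩ := ih m (by omega) hm
        obtain ⟨z, hz1, hz2, hz3, hz4, hz5⟩ := ih (m + 1) (by omega) (by omega)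
        obtain ⟨r1, r2⟩ := g_odd h0 h1 m hm
        refine ⟨1, by rw [r1, r2, one_mul], by simp, fun _ => rfl, by omega, ?_⟩
        rw [r1, hx1, hz1]
        have hs : ((-1 : ℂ)) ^ m ≠ 0 := pow_ne_zero _ (by norm_num)
        refine mul_ne_zero (mul_ne_zero hs (pow_ne_zero _ ht0)) ?_
        rw [show z * g f (m + 1) * g f m - g f (m + 1) * (x * g f m) =
          (z - x) * (g f (m + 1) * g f m) by ring]
        refine mul_ne_zero ?_ (mul_ne_zero hz5 hx5)
        intro h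
        have hzx : z = x := by linear_combination h
        rcases Nat.mod_two_eq_zero_or_one m with hm2 | hm2
        · have h5 := hx4 hm2
          have h6 := hz3 (by omega)
          rw [← hzx, h6] at h5
          norm_num at h5
        · have h5 := hx3 hm2
          have h6 := hz4 (by omega)
          rw [hzx, h5] at h6
          norm_num at h6

lemma ratio_h_step (ht : 4 ≤ ‖t‖) (h0 : ∀ m, f (2 * m) = t * f m)
    (h1 : ∀ m, f (2 * m + 1) = t * f m + 1) (p q : ℕ) (hq : 0 < q) (hpq : q ≤ p)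
    (hpq' : p ≤ q + 1) (x y : ℂ) (hx : g' f q = x * g f q) (hx1 : ‖x‖ ≤ 1) (hg : g f q ≠ 0)
    (hy : h' f p = y * h f p) (hy1 : ‖y‖ ≤ ‖t‖ + 2) (hh : h f p ≠ 0) :
    ∃ y' : ℂ, h' f (p + q) = y' * h f (p + q) ∧ ‖y'‖ ≤ ‖t‖ + 2 ∧ h f (p + q) ≠ 0 := by
  have ht0 : t ≠ 0 := by
    intro h
    rw [h, norm_zero] at ht
    linarith
  obtain ⟨r1, r2⟩ := h_rec h0 h1 p q hq hpq hpq'
  -- lower bounds
  have b1 : ‖t‖ - 2 ≤ ‖t - 2 * x‖ := by
    have := norm_sub_norm_le t (2 * x)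
    rw [norm_mul, Complex.norm_ofNat] at this
    linarith
  have b1' : 0 < ‖t - 2 * x‖ := by linarith
  have hne : t - 2 * x ≠ 0 := norm_pos_iff.mp b1'
  have b2 : ‖t - 2 * x‖ ≤ ‖t * (t - 2 * x) - x * y‖ := by
    have e1 := norm_sub_norm_le (t * (t - 2 * x)) (x * y)
    rw [norm_mul, norm_mul] at e1
    have e2 : ‖x‖ * ‖y‖ ≤ ‖t‖ + 2 := by
      calc ‖x‖ * ‖y‖ ≤ 1 * ‖y‖ := by gcongr
        _ ≤ ‖t‖ + 2 := by linarith
    nlinarith
  have b3 : 0 < ‖t * (t - 2 * x) - x * y‖ := by linarith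
  have hne2 : t * (t - 2 * x) - x * y ≠ 0 := norm_pos_iff.mp b3
  obtain ⟨k, rfl⟩ : ∃ k, p = k + 1 := ⟨p - 1, by omega⟩
  obtain ⟨l, rfl⟩ : ∃ l, q = l + 1 := ⟨q - 1, by omega⟩
  simp only [Nat.add_sub_cancel] at r1 r2
  have r1' : h f (k + 1 + (l + 1)) = t ^ k * t ^ l * h f (k + 1) * g f (l + 1) *
      (t * (t - 2 * x) - x * y) := by
    rw [r1, hx, hy, pow_succ]
    ring
  have r2' : h' f (k + 1 + (l + 1)) = t ^ k * t ^ l * h f (k + 1) * g f (l + 1) *
      (y * (t - 2 * x)) := by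
    rw [r2, hx, hy]
    ring
  refine ⟨y * (t - 2 * x) / (t * (t - 2 * x) - x * y), ?_, ?_, ?_⟩
  · rw [r1', r2', div_mul_eq_mul_div, eq_div_iff hne2]
    ring
  · rw [norm_div, norm_mul, div_le_iff₀ b3]
    calc ‖y‖ * ‖t - 2 * x‖ ≤ (‖t‖ + 2) * ‖t - 2 * x‖ := by gcongr
      _ ≤ (‖t‖ + 2) * ‖t * (t - 2 * x) - x * y‖ := by gcongr
  · rw [r1']
    exact mul_ne_zero (mul_ne_zero (mul_ne_zero (mul_ne_zero (pow_ne_zero _ ht0)
      (pow_ne_zero _ ht0)) hh) hg) hne2

lemma ratio_h (ht : 4 ≤ ‖t‖) (hf0 : f 0 = 0) (h0 : ∀ m, f (2 * m) = t * f m)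
    (h1 : ∀ m, f (2 * m + 1) = t * f m + 1) (n : ℕ) (hn : 2 ≤ n) :
    ∃ y : ℂ, h' f n = y * h f n ∧ ‖y‖ ≤ ‖t‖ + 2 ∧ h f n ≠ 0 := by
  obtain ⟨f1, f2⟩ := f_values hf0 h0 h1
  induction n using Nat.strong_induction_on with
  | _ n ih =>
    rcases Nat.even_or_odd' n with ⟨m, rfl | rfl⟩
    · rcases Nat.lt_or_ge m 2 with hm | hm
      · have hm1 : m = 1 := by omega
        subst hm1
        have e1 : h f 2 = -1 := by
          simp [h, hk, Matrix.det_fin_two, f1, hf0]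
        have e2 : h' f 2 = t - 2 := by
          simp [h', dd, hk, J, Matrix.det_fin_two, f1, f2, hf0]
          ring
        refine ⟨2 - t, ?_, ?_, ?_⟩
        · rw [Nat.mul_one, e1, e2]; ring
        · have := norm_sub_le (2 : ℂ) t
          rw [Complex.norm_ofNat] at this
          linarith
        · rw [Nat.mul_one, e1]; norm_num
      · obtain ⟨x, hx1, hx2, -, -, hx5⟩ := ratio_g ht hf0 h0 h1 m (by omega)
        obtain ⟨y, hy1, hy2, hy3⟩ := ih m (by omega) hm
        have := ratio_h_step ht h0 h1 m m (by omega) le_rfl (by omega) x y hx1 hx2 hx5 hy1 hy2 hy3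
        rwa [← two_mul] at this
    · obtain ⟨x, hx1, hx2, -, -, hx5⟩ := ratio_g ht hf0 h0 h1 m (by omega)
      obtain ⟨y, hy1, hy2, hy3⟩ := ih (m + 1) (by omega) (by omega)
      have := ratio_h_step ht h0 h1 (m + 1) m (by omega) (by omega) le_rfl x y hx1 hx2 hx5 hy1
        hy2 hy3
      rwa [show m + 1 + m = 2 * m + 1 by ring] at this

end

/-- Every complex root `z` of a binary Hankel determinant polynomial `H(n,t)` with `n ≥ 2`
satisfies `|z| < 4`. -/
theorem result (n : ℕ) (hn : 2 ≤ n) (z : ℂ) (hz : aeval z (hankel n) = 0) : ‖z‖ < 4 := by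
  by_contra hcon
  have ht : 4 ≤ ‖z‖ := not_lt.mp hcon
  set f : ℕ → ℂ := fun m => aeval z (S m) with hf
  obtain ⟨y, -, -, hy⟩ := ratio_h (f := f) ht (by simp [hf, S_zero])
    (fun m => by simp [hf, S_even]) (fun m => by simp [hf, S_odd]) n hn
  apply hy
  rw [hankel, AlgHom.map_det] at hz
  rw [h, ← hz]
  congr 1

end Pool.Agent.Results.MP_9fc12a_nt.RootsBounded
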